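import Pool.Agent.X246.ZRK.Sum

/-!
# Graphs without `K_{s,t}` and of small rank have few edges
-/

set_option autoImplicit false

namespace Pool.Agent.X246.ZRK

open Finset

section two

variable {X Y : Type} [Fintype X] [Fintype Y] [DecidableEq X] [DecidableEq Y]

/-- The case in which no two rows have more than `t` common ones. -/
theorem two_bound (F : X → Finset Y) (t : ℕ) (ht : 1 ≤ t) (hF : NoCommon F 2 t)
    (hr : 1 ≤ (mat F).rank) (hY : 1 ≤ Fintype.card Y) :
    ∑ x, ((F x).card : ℝ) ≤ Fintype.card X * √(2 * (mat F).rank * t ^ 2) +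
      2 * (mat F).rank * (6 * √(t * Fintype.card Y)) + 2 * Fintype.card Y := by
  classical
  set n : ℝ := (Fintype.card Y : ℝ) with hn
  set r : ℝ := ((mat F).rank : ℝ) with hrr
  have hr1 : (1 : ℝ) ≤ r := by rw [hrr]; exact_mod_cast hr
  have hn1 : (1 : ℝ) ≤ n := by rw [hn]; exact_mod_cast hY
  have ht' : (1 : ℝ) ≤ t := by exact_mod_cast ht
  set b : ℝ := 6 * √(t * n) with hb
  have hb0 : 0 < b := by rw [hb]; positivity
  let L := univ.filter fun x => ((F x).card : ℝ) ^ 2 < 2 * r * t ^ 2
  let M := univ.filter fun x => 2 * r * (t : ℝ) ^ 2 ≤ ((F x).card : ℝ) ^ 2 ∧ ((F x).card : ℝ) < b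
  let H := univ.filter fun x => b ≤ ((F x).card : ℝ)
  have hcov : (univ : Finset X) ⊆ L ∪ (M ∪ H) := by
    intro x _
    simp only [L, M, H, mem_union, mem_filter, mem_univ, true_and]
    rcases lt_or_ge (((F x).card : ℝ) ^ 2) (2 * r * t ^ 2) with h | h
    · exact Or.inl h
    · rcases lt_or_ge ((F x).card : ℝ) b with h' | h'
      · exact Or.inr (Or.inl ⟨h, h'⟩)
      · exact Or.inr (Or.inr h')
  have hL : ∑ x ∈ L, ((F x).card : ℝ) ≤ Fintype.card X * √(2 * r * t ^ 2) := by
    calc ∑ x ∈ L, ((F x).card : ℝ) ≤ ∑ _x ∈ L, √(2 * r * t ^ 2) := by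
          refine sum_le_sum fun x hx => ?_
          exact Real.le_sqrt_of_sq_le (mem_filter.1 hx).2.le
      _ = L.card * √(2 * r * t ^ 2) := by rw [sum_const, nsmul_eq_mul]
      _ ≤ Fintype.card X * √(2 * r * t ^ 2) := by
          have h1 : (L.card : ℝ) ≤ Fintype.card X := by exact_mod_cast card_le_univ L
          exact mul_le_mul_of_nonneg_right h1 (Real.sqrt_nonneg _)
  have hMc : (M.card : ℝ) ≤ 2 * r := by
    have hg := gram_bound F M (1 / (2 * r)) (fun x hx => by
      have h1 := (mem_filter.1 hx).2.1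
      have h2 : 0 < 2 * r * (t : ℝ) ^ 2 := by positivity
      rw [← card_pos]
      by_contra hcon
      have h3 : (F x).card = 0 := by omega
      rw [h3] at h1
      norm_num at h1
      linarith) (by
      intro x hx y hy hxy
      have h1 := (mem_filter.1 hx).2.1
      have h2 := (mem_filter.1 hy).2.1
      have h3 : (F x ∩ F y).card ≤ t := by
        have h4 := hF {x, y} (card_pair hxy)
        refine le_trans (card_le_card ?_) h4
        intro z hz
        simp only [mem_inter] at hz
        simp only [mem_filter, mem_univ, true_and, mem_insert, mem_singleton]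
        rintro w (rfl | rfl)
        · exact hz.1
        · exact hz.2
      have h3' : ((F x ∩ F y).card : ℝ) ≤ t := by exact_mod_cast h3
      have h5 : ((F x ∩ F y).card : ℝ) ^ 2 ≤ (t : ℝ) ^ 2 :=
        pow_le_pow_left₀ (Nat.cast_nonneg _) h3' 2
      have h6 : 2 * r * (t : ℝ) ^ 2 ≤ (F x).card * (F y).card := by
        have h7 : (2 * r * (t : ℝ) ^ 2) ^ 2 ≤ (((F x).card : ℝ) * (F y).card) ^ 2 := by
          rw [mul_pow ((F x).card : ℝ)]
          calc (2 * r * (t : ℝ) ^ 2) ^ 2 = (2 * r * (t : ℝ) ^ 2) * (2 * r * (t : ℝ) ^ 2) := by ring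
            _ ≤ _ := by gcongr
        exact (pow_le_pow_iff_left₀ (by positivity) (by positivity) (by norm_num)).1 h7
      refine h5.trans ?_
      have h8 : 1 / (2 * r) * (F x).card * (F y).card = ((F x).card * (F y).card) / (2 * r) := by
        ring
      rw [h8, le_div_iff₀ (by positivity)]
      linarith) (by positivity)
    rw [← hrr] at hg
    have h1 : r * (1 + M.card * (1 / (2 * r))) = r + M.card / 2 := by
      field_simp
    rw [h1] at hg
    linarith
  have hM : ∑ x ∈ M, ((F x).card : ℝ) ≤ 2 * r * b := by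
    calc ∑ x ∈ M, ((F x).card : ℝ) ≤ ∑ _x ∈ M, b :=
          sum_le_sum fun x hx => ((mem_filter.1 hx).2.2).le
      _ = M.card * b := by rw [sum_const, nsmul_eq_mul]
      _ ≤ 2 * r * b := mul_le_mul_of_nonneg_right hMc hb0.le
  have hH : ∑ x ∈ H, ((F x).card : ℝ) ≤ 2 * n := by
    have h1 := heavy F 2 t (by norm_num) ht hF b hb0 (by
      rw [hb, mul_pow (6 : ℝ), Real.sq_sqrt (by positivity), ← hn]
      norm_num
      nlinarith) H (fun x hx => (mem_filter.1 hx).2)
    push_cast at h1
    exact h1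
  have hnn : ∀ x : X, (0 : ℝ) ≤ (F x).card := fun x => Nat.cast_nonneg _
  have hun : ∀ P Q : Finset X, ∑ x ∈ P ∪ Q, ((F x).card : ℝ) ≤
      ∑ x ∈ P, ((F x).card : ℝ) + ∑ x ∈ Q, ((F x).card : ℝ) := by
    intro P Q
    have := sum_union_inter (s₁ := P) (s₂ := Q) (f := fun x => ((F x).card : ℝ))
    have h2 : 0 ≤ ∑ x ∈ P ∩ Q, ((F x).card : ℝ) := sum_nonneg fun x _ => hnn x
    linarith
  have h1 : ∑ x, ((F x).card : ℝ) ≤ ∑ x ∈ L ∪ (M ∪ H), ((F x).card : ℝ) :=
    sum_le_sum_of_subset_of_nonneg hcov fun x _ _ => hnn x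
  have h2 := hun L (M ∪ H)
  have h3 := hun M H
  linarith

end two

section graph

variable {V : Type} [Fintype V] [DecidableEq V]

theorem noCommon_of_free (G : SimpleGraph V) [DecidableRel G.Adj] (s t : ℕ)
    (h : (completeBipartiteGraph (Fin s) (Fin t)).Free G) :
    NoCommon (fun x => G.neighborFinset x) s t := by
  intro K hK
  by_contra hcon
  push Not at hcon
  obtain ⟨C, hC, hCc⟩ := exists_subset_card_eq hcon.le
  apply h
  let a : Fin s ≃ K := (Fintype.equivFinOfCardEq (by rw [Fintype.card_coe, hK])).symm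
  let c : Fin t ≃ C := (Fintype.equivFinOfCardEq (by rw [Fintype.card_coe, hCc])).symm
  have hadj : ∀ (i : Fin s) (j : Fin t), G.Adj (a i).1 (c j).1 := by
    intro i j
    have h1 := (mem_filter.1 (hC (c j).2)).2 (a i).1 (a i).2
    rwa [SimpleGraph.mem_neighborFinset] at h1
  refine ⟨⟨⟨Sum.elim (fun i => (a i).1) (fun j => (c j).1), ?_⟩, ?_⟩⟩
  · rintro (i | i) (j | j) hij
    · simp at hij
    · exact hadj i j
    · exact (hadj j i).symm
    · simp at hij
  · rintro (i | i) (j | j) hij
    · have : a i = a j := Subtype.ext hij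
      rw [a.injective this]
    · exact absurd (hadj i j) (by
        have : (a i).1 = (c j).1 := hij
        rw [this]
        exact G.loopless.irrefl _)
    · exact absurd (hadj j i) (by
        have : (c i).1 = (a j).1 := hij
        rw [this]
        exact G.loopless.irrefl _)
    · have : c i = c j := Subtype.ext hij
      rw [c.injective this]

theorem mat_nbr (G : SimpleGraph V) [DecidableRel G.Adj] :
    mat (fun x => G.neighborFinset x) = G.adjMatrix ℝ := by
  ext x y
  simp [mat, SimpleGraph.adjMatrix_apply]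

theorem sum_nbr (G : SimpleGraph V) [DecidableRel G.Adj] :
    ∑ x, ((G.neighborFinset x).card : ℝ) = 2 * G.edgeFinset.card := by
  have h := G.sum_degrees_eq_twice_card_edges
  have h2 : ((∑ v, G.degree v : ℕ) : ℝ) = ((2 * G.edgeFinset.card : ℕ) : ℝ) := by
    exact_mod_cast h
  push_cast at h2
  exact h2

theorem eq_zero_of_rank {X Y : Type} [Fintype X] [Fintype Y] (M : Matrix X Y ℝ)
    (h : M.rank = 0) : M = 0 := by
  rw [Matrix.rank_eq_finrank_span_row] at h
  have h1 := Submodule.finrank_eq_zero.1 h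
  rw [Submodule.span_eq_bot] at h1
  ext x y
  exact congrFun (h1 _ ⟨x, rfl⟩) y

/-- **Graphs without `K_{s,t}`.** -/
theorem graph_bound (s t : ℕ) (hs : 2 ≤ s) (ht : 1 ≤ t) : ∃ C : ℝ, 0 < C ∧
    ∀ (V : Type) [Fintype V] [DecidableEq V] (G : SimpleGraph V) [DecidableRel G.Adj],
      (completeBipartiteGraph (Fin s) (Fin t)).Free G →
      (G.edgeFinset.card : ℝ) ≤ C * Fintype.card V * √((G.adjMatrix ℝ).rank) ^ (s - 1) := by
  rcases Nat.lt_or_ge 2 s with hs3 | hs2
  · -- at least three
    obtain ⟨k, rfl⟩ : ∃ k, s = k + 1 := ⟨s - 1, by omega⟩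
    have hk : 2 ≤ k := by omega
    set A : ℝ := 3 * k * t * 2 ^ k with hA
    set A1 : ℝ := t * (3 * (k + 1)) ^ (k + 1) with hA1
    have hA0 : 0 < A := by
      have h1 : (0 : ℝ) < k := by exact_mod_cast (by omega : 0 < k)
      have h2 : (0 : ℝ) < t := by exact_mod_cast (by omega : 0 < t)
      rw [hA]
      positivity
    have hA10 : 0 < A1 := by
      have h2 : (0 : ℝ) < t := by exact_mod_cast (by omega : 0 < t)
      rw [hA1]
      positivity
    refine ⟨(√2 * A) ^ k + 8 * 2 ^ (k + 1) * A1 + (k + 1), by positivity, ?_⟩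
    intro V _ _ G _ hG
    rw [Nat.add_sub_cancel]
    rcases Nat.eq_zero_or_pos (G.adjMatrix ℝ).rank with h0 | hr
    · have h1 : G.adjMatrix ℝ = 0 := eq_zero_of_rank _ h0
      have h2 : G.edgeFinset.card = 0 := by
        rw [card_eq_zero, SimpleGraph.edgeFinset_eq_empty]
        ext x y
        have h3 := congrFun (congrFun h1 x) y
        rw [SimpleGraph.adjMatrix_apply, Matrix.zero_apply] at h3
        simp only [SimpleGraph.bot_adj, iff_false]
        intro h4
        rw [if_pos h4] at h3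
        norm_num at h3
      rw [h2, Nat.cast_zero]
      positivity
    have hV : 1 ≤ Fintype.card V := by
      have := Matrix.rank_le_card_width (G.adjMatrix ℝ)
      omega
    have h1 := total_bound (fun x => G.neighborFinset x) k t (by omega) ht
      (noCommon_of_free G _ _ hG) (by rw [mat_nbr]; exact hr) hV
    rw [mat_nbr, sum_nbr] at h1
    set r : ℝ := ((G.adjMatrix ℝ).rank : ℝ) with hrr
    set n : ℝ := (Fintype.card V : ℝ) with hn
    have hr1 : (1 : ℝ) ≤ r := by rw [hrr]; exact_mod_cast hr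
    have hn0 : 0 ≤ n := Nat.cast_nonneg _
    have e1 : √(2 * r * (3 * k * t * 2 ^ k) ^ 2) = √2 * A * √r := by
      rw [← hA, Real.sqrt_mul (by positivity), Real.sqrt_mul (by norm_num),
        Real.sqrt_sq hA0.le]
      ring
    rw [e1, mul_pow (√2 * A)] at h1
    have hs1 : 1 ≤ √r := Real.one_le_sqrt.2 hr1
    have h2 : r ≤ √r ^ k := by
      calc r = √r ^ 2 := (Real.sq_sqrt (by linarith)).symm
        _ ≤ √r ^ k := pow_le_pow_right₀ hs1 hk
    have h3 : 1 ≤ √r ^ k := one_le_pow₀ hs1
    have h4 : (8 * r * 2 ^ (k + 1) * (t * (3 * (k + 1)) ^ (k + 1)) + (k + 1)) * n ≤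
        (8 * 2 ^ (k + 1) * A1 + (k + 1)) * n * √r ^ k := by
      have h5 : 8 * r * 2 ^ (k + 1) * (t * (3 * (k + 1)) ^ (k + 1)) + (k + 1) ≤
          (8 * 2 ^ (k + 1) * A1 + (k + 1)) * √r ^ k := by
        rw [← hA1]
        have h6 : 0 ≤ 8 * 2 ^ (k + 1) * A1 := by positivity
        have h7 : (0 : ℝ) ≤ k + 1 := by positivity
        have h8 := mul_le_mul_of_nonneg_left h2 h6
        have h9 := mul_le_mul_of_nonneg_left h3 h7
        linarith
      calc _ ≤ (8 * 2 ^ (k + 1) * A1 + (k + 1)) * √r ^ k * n := mul_le_mul_of_nonneg_right h5 hn0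
        _ = _ := by ring
    have h10 : (0 : ℝ) ≤ G.edgeFinset.card := Nat.cast_nonneg _
    linarith
  · have hs' : s = 2 := by omega
    subst hs'
    have ht0 : (0 : ℝ) < t := by exact_mod_cast (by omega : 0 < t)
    refine ⟨√2 * t + 12 * √t + 2, by positivity, ?_⟩
    intro V _ _ G _ hG
    rcases Nat.eq_zero_or_pos (G.adjMatrix ℝ).rank with h0 | hr
    · have h1 : G.adjMatrix ℝ = 0 := eq_zero_of_rank _ h0
      have h2 : G.edgeFinset.card = 0 := by
        rw [card_eq_zero, SimpleGraph.edgeFinset_eq_empty]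
        ext x y
        have h3 := congrFun (congrFun h1 x) y
        rw [SimpleGraph.adjMatrix_apply, Matrix.zero_apply] at h3
        simp only [SimpleGraph.bot_adj, iff_false]
        intro h4
        rw [if_pos h4] at h3
        norm_num at h3
      rw [h2, Nat.cast_zero]
      positivity
    have hrV := Matrix.rank_le_card_width (G.adjMatrix ℝ)
    have hV : 1 ≤ Fintype.card V := by omega
    have h1 := two_bound (fun x => G.neighborFinset x) t ht
      (noCommon_of_free G _ _ hG) (by rw [mat_nbr]; exact hr) hV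
    rw [mat_nbr, sum_nbr] at h1
    set r : ℝ := ((G.adjMatrix ℝ).rank : ℝ) with hrr
    set n : ℝ := (Fintype.card V : ℝ) with hn
    have hr1 : (1 : ℝ) ≤ r := by rw [hrr]; exact_mod_cast hr
    have hrn : r ≤ n := by rw [hrr, hn]; exact_mod_cast hrV
    have hn0 : 0 ≤ n := Nat.cast_nonneg _
    have e1 : √(2 * r * (t : ℝ) ^ 2) = √2 * t * √r := by
      rw [Real.sqrt_mul (by positivity), Real.sqrt_mul (by norm_num), Real.sqrt_sq ht0.le]
      ring
    rw [e1] at h1
    have hs1 : 1 ≤ √r := Real.one_le_sqrt.2 hr1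
    have e2 : √(t * n) = √t * √n := Real.sqrt_mul ht0.le _
    have e3 : r * √n ≤ n * √r := by
      have h2 : √r ≤ √n := Real.sqrt_le_sqrt hrn
      have h3 : r = √r * √r := (Real.mul_self_sqrt (by linarith)).symm
      have h4 : n = √n * √n := (Real.mul_self_sqrt hn0).symm
      calc r * √n = √r * √n * √r := by rw [h3]; simp only [Real.sqrt_mul_self (Real.sqrt_nonneg r)]; ring
        _ ≤ √n * √n * √r := by gcongr
        _ = n * √r := by rw [← h4]
    rw [e2] at h1
    have h5 : 2 * r * (6 * (√t * √n)) ≤ 12 * √t * (n * √r) := by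
      have h6 : 0 ≤ 12 * √(t : ℝ) := by positivity
      have h7 := mul_le_mul_of_nonneg_left e3 h6
      linarith
    have h8 : 2 * n ≤ 2 * n * √r := by nlinarith
    have h10 : (0 : ℝ) ≤ G.edgeFinset.card := Nat.cast_nonneg _
    have e4 : (√2 * t + 12 * √t + 2) * n * √r ^ (2 - 1) =
        n * (√2 * t * √r) + 12 * √t * (n * √r) + 2 * n * √r := by
      norm_num
      ring
    rw [e4]
    linarith

end graph

end Pool.Agent.X246.ZRK
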