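import Mathlib
import Pool.Agent.Helper255.EllC

/-!
# The rank of a matrix of zeros and ones whose rows have small intersections
-/

set_option autoImplicit false

namespace Pool.Agent.X246.ZRK

open Finset

variable {X Y : Type} [Fintype X] [Fintype Y] [DecidableEq Y]

/-- The matrix whose row `x` is the indicator of `F x`. -/
def mat (F : X → Finset Y) : Matrix X Y ℝ := fun x y => if y ∈ F x then 1 else 0

/-- the row as a vector of Euclidean space -/
noncomputable def row (F : X → Finset Y) (x : X) : EuclideanSpace ℝ Y :=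
  WithLp.toLp 2 (mat F x)

theorem inner_row (F : X → Finset Y) (x y : X) :
    @inner ℝ _ _ (row F x) (row F y) = ((F x ∩ F y).card : ℝ) := by
  unfold row
  rw [EuclideanSpace.inner_eq_star_dotProduct]
  simp only [dotProduct, mat, Pi.star_apply, star_trivial]
  rw [card_eq_sum_ones, Nat.cast_sum]
  rw [← sum_filter_add_sum_filter_not univ (fun z => z ∈ F x ∩ F y)]
  have h2 : ∑ z ∈ univ.filter (fun z => ¬ z ∈ F x ∩ F y),
      ((if z ∈ F y then (1 : ℝ) else 0) * if z ∈ F x then 1 else 0) = 0 := by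
    refine sum_eq_zero fun z hz => ?_
    rw [mem_filter, mem_inter] at hz
    by_cases h3 : z ∈ F x
    · have h4 : z ∉ F y := fun h => hz.2 ⟨h3, h⟩
      simp [h4]
    · simp [h3]
  rw [h2, add_zero]
  have h3 : univ.filter (fun z => z ∈ F x ∩ F y) = F x ∩ F y := by
    ext z
    simp
  rw [h3]
  refine sum_congr rfl fun z hz => ?_
  rw [mem_inter] at hz
  simp [hz.1, hz.2]

theorem finrank_span_row (F : X → Finset Y) :
    Module.finrank ℝ (Submodule.span ℝ (Set.range (row F))) ≤ (mat F).rank := by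
  rw [Matrix.rank_eq_finrank_span_row]
  let e := (WithLp.linearEquiv 2 ℝ (Y → ℝ)).symm
  have h : Submodule.span ℝ (Set.range (row F)) =
      (Submodule.span ℝ (Set.range (mat F).row)).map (e : (Y → ℝ) →ₗ[ℝ] EuclideanSpace ℝ Y) := by
    rw [Submodule.map_span, ← Set.range_comp]
    rfl
  rw [h]
  exact le_of_eq (LinearEquiv.finrank_map_eq e _)

/-- **Rank bound.** -/
theorem gram_bound (F : X → Finset Y) (S : Finset X) (θ : ℝ)
    (hne : ∀ x ∈ S, (F x).Nonempty)
    (hp : ∀ x ∈ S, ∀ y ∈ S, x ≠ y →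
      ((F x ∩ F y).card : ℝ) ^ 2 ≤ θ * (F x).card * (F y).card) (hθ : 0 ≤ θ) :
    (S.card : ℝ) ≤ (mat F).rank * (1 + S.card * θ) := by
  classical
  rcases S.eq_empty_or_nonempty with rfl | hS
  · simp
  have hpos : (0 : ℝ) < S.card := by exact_mod_cast hS.card_pos
  have hd : ∀ x ∈ S, (0 : ℝ) < (F x).card := fun x hx => by exact_mod_cast (hne x hx).card_pos
  let W := Submodule.span ℝ (Set.range (row F))
  let v : S → W := fun x =>
    ⟨(Real.sqrt (F x.1).card)⁻¹ • row F x.1,
      Submodule.smul_mem _ _ (Submodule.subset_span ⟨x.1, rfl⟩)⟩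
  have hin : ∀ x y : S, @inner ℝ _ _ (v x) (v y) =
      (Real.sqrt (F x.1).card)⁻¹ * ((Real.sqrt (F y.1).card)⁻¹ * ((F x.1 ∩ F y.1).card : ℝ)) := by
    intro x y
    rw [Submodule.coe_inner, inner_smul_left, inner_smul_right, inner_row]
    rfl
  have hsq : ∀ x : S, (Real.sqrt (F x.1).card) ^ 2 = (F x.1).card := fun x =>
    Real.sq_sqrt (Nat.cast_nonneg _)
  have hn : ∀ x, ‖v x‖ = 1 := by
    intro x
    have h1 : @inner ℝ _ _ (v x) (v x) = (1 : ℝ) := by
      rw [hin, inter_self]
      have h2 := hsq x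
      have h3 : Real.sqrt (F x.1).card ≠ 0 := (Real.sqrt_pos.2 (hd x.1 x.2)).ne'
      nth_rewrite 3 [← h2]
      field_simp
    rw [real_inner_self_eq_norm_sq] at h1
    have h2 := norm_nonneg (v x)
    nlinarith [sq_nonneg (‖v x‖ - 1)]
  have key := Pool.Agent.Helper255.EllC.trace_bound (mat F).rank (finrank_span_row F) v hn
  rw [Fintype.card_coe] at key
  have h5 : ∑ i, ∑ j, (@inner ℝ _ _ (v i) (v j)) ^ 2 ≤ S.card + (S.card : ℝ) ^ 2 * θ := by
    have h6 : ∀ i j : S, (@inner ℝ _ _ (v i) (v j)) ^ 2 ≤ (if i = j then 1 else 0) + θ := by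
      intro i j
      by_cases hij : i = j
      · subst hij
        rw [if_pos rfl, real_inner_self_eq_norm_sq, hn]
        norm_num
        exact hθ
      · rw [if_neg hij, zero_add, hin, mul_pow, mul_pow, inv_pow, inv_pow, hsq, hsq]
        have h7 := hp i.1 i.2 j.1 j.2 (fun h => hij (Subtype.ext h))
        have hi := hd i.1 i.2
        have hj := hd j.1 j.2
        rw [← mul_assoc, ← mul_inv, inv_mul_le_iff₀ (mul_pos hi hj)]
        calc ((F i.1 ∩ F j.1).card : ℝ) ^ 2 ≤ _ := h7
          _ = _ := by ring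
    calc ∑ i, ∑ j, (@inner ℝ _ _ (v i) (v j)) ^ 2
        ≤ ∑ i : S, ∑ j : S, ((if i = j then (1 : ℝ) else 0) + θ) :=
          sum_le_sum fun i _ => sum_le_sum fun j _ => h6 i j
      _ = S.card + (S.card : ℝ) ^ 2 * θ := by
          simp only [sum_add_distrib, sum_ite_eq, mem_univ, if_true, sum_const, card_univ,
            Fintype.card_coe, nsmul_eq_mul, mul_one]
          ring
  have h8 : (S.card : ℝ) ^ 2 ≤ (mat F).rank * (S.card + (S.card : ℝ) ^ 2 * θ) :=
    key.trans (mul_le_mul_of_nonneg_left h5 (Nat.cast_nonneg _))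
  have h9 : (S.card : ℝ) * S.card ≤ S.card * ((mat F).rank * (1 + S.card * θ)) := by
    calc (S.card : ℝ) * S.card = (S.card : ℝ) ^ 2 := by ring
      _ ≤ _ := h8
      _ = _ := by ring
  exact le_of_mul_le_mul_left h9 hpos

end Pool.Agent.X246.ZRK
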