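import Pool.Agent.X246.ZRK.Gram

/-!
# Families of sets of which no `k` have many common elements
-/

set_option autoImplicit false

namespace Pool.Agent.X246.ZRK

open Finset

theorem le_choose (k : ℕ) (hk : 1 ≤ k) (d : ℕ) : d ≤ d.choose k + (k - 1) := by
  rcases Nat.lt_or_ge d k with h | h
  · omega
  · obtain ⟨m, rfl⟩ := Nat.exists_eq_add_of_le h
    clear h
    suffices h : m + 1 ≤ (k + m).choose k by omega
    induction m with
    | zero => simp
    | succ m ih =>
      obtain ⟨j, rfl⟩ := Nat.exists_eq_succ_of_ne_zero (by omega : k ≠ 0)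
      have h1 : (j.succ + (m + 1)).choose j.succ =
          (j.succ + m).choose j + (j.succ + m).choose j.succ := by
        rw [show j.succ + (m + 1) = (j.succ + m).succ by omega, Nat.choose_succ_succ]
      have h2 : 1 ≤ (j.succ + m).choose j := Nat.choose_pos (by omega)
      rw [h1]
      omega

section

variable {X Y : Type} [DecidableEq X] [DecidableEq Y] (F : X → Finset Y)

/-- Double counting. -/
theorem pairs_le (N : Finset Y) (P : Finset X) (k t : ℕ) (hk : 1 ≤ k)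
    (h : ∀ K ⊆ P, K.card = k → (N.filter fun z => ∀ y ∈ K, z ∈ F y).card ≤ t) :
    ∑ y ∈ P, (F y ∩ N).card ≤ (k - 1) * N.card + t * P.card.choose k := by
  have e1 : ∑ y ∈ P, (F y ∩ N).card = ∑ z ∈ N, (P.filter fun y => z ∈ F y).card := by
    have h1 := sum_card_bipartiteAbove_eq_sum_card_bipartiteBelow (s := P) (t := N)
      (r := fun y z => z ∈ F y)
    unfold bipartiteAbove bipartiteBelow at h1
    rw [← h1]
    refine sum_congr rfl fun y _ => ?_
    congr 1
    ext z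
    simp only [mem_inter, mem_filter]
    tauto
  have e2 : ∑ z ∈ N, (P.filter fun y => z ∈ F y).card.choose k ≤ t * P.card.choose k := by
    have h1 := sum_card_bipartiteAbove_eq_sum_card_bipartiteBelow (s := N)
      (t := P.powersetCard k) (r := fun z K => ∀ y ∈ K, z ∈ F y)
    unfold bipartiteAbove bipartiteBelow at h1
    have h2 : ∀ z, (P.powersetCard k).filter (fun K => ∀ y ∈ K, z ∈ F y) =
        (P.filter fun y => z ∈ F y).powersetCard k := by
      intro z
      ext K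
      simp only [mem_filter, mem_powersetCard, subset_iff]
      constructor
      · rintro ⟨⟨h3, h4⟩, h5⟩
        exact ⟨fun y hy => ⟨h3 hy, h5 y hy⟩, h4⟩
      · rintro ⟨h3, h4⟩
        exact ⟨⟨fun y hy => (h3 hy).1, h4⟩, fun y hy => (h3 hy).2⟩
    simp only [h2, card_powersetCard] at h1
    rw [h1]
    calc ∑ K ∈ P.powersetCard k, (N.filter fun z => ∀ y ∈ K, z ∈ F y).card
        ≤ ∑ _K ∈ P.powersetCard k, t := by
          refine sum_le_sum fun K hK => ?_
          rw [mem_powersetCard] at hK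
          exact h K hK.1 hK.2
      _ = t * P.card.choose k := by
          rw [sum_const, card_powersetCard, smul_eq_mul, mul_comm]
  rw [e1]
  calc ∑ z ∈ N, (P.filter fun y => z ∈ F y).card
      ≤ ∑ z ∈ N, ((P.filter fun y => z ∈ F y).card.choose k + (k - 1)) :=
        sum_le_sum fun z _ => le_choose k hk _
    _ = ∑ z ∈ N, (P.filter fun y => z ∈ F y).card.choose k + (k - 1) * N.card := by
        rw [sum_add_distrib, sum_const, smul_eq_mul, mul_comm]
    _ ≤ (k - 1) * N.card + t * P.card.choose k := by omega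

/-- If the members of `P` have at least `b` elements in `N` and no `k` of them have more than `t`
common elements in `N`, then `P` has fewer than `2 k |N| / b` members, provided `b` is large. -/
theorem few (N : Finset Y) (P : Finset X) (k t : ℕ) (hk : 1 ≤ k) (ht : 1 ≤ t)
    (h : ∀ K ⊆ P, K.card = k → (N.filter fun z => ∀ y ∈ K, z ∈ F y).card ≤ t) (b : ℝ)
    (hb0 : 0 < b) (hP : ∀ y ∈ P, b ≤ (F y ∩ N).card)
    (hb : (t : ℝ) * (3 * k) ^ k * (N.card : ℝ) ^ (k - 1) ≤ b ^ k) :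
    (P.card : ℝ) ≤ 2 * k * N.card / b := by
  rcases P.eq_empty_or_nonempty with rfl | ⟨y0, hy0⟩
  · rw [card_empty, Nat.cast_zero]
    positivity
  have hbN : b ≤ N.card := (hP y0 hy0).trans (by exact_mod_cast card_le_card inter_subset_right)
  have hN : (0 : ℝ) < N.card := lt_of_lt_of_le hb0 hbN
  have hk' : (1 : ℝ) ≤ k := by exact_mod_cast hk
  have ht' : (1 : ℝ) ≤ t := by exact_mod_cast ht
  by_contra hcon
  push Not at hcon
  set z : ℝ := 2 * k * N.card / b with hz
  have hz2 : 2 ≤ z := by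
    rw [hz, le_div_iff₀ hb0]
    nlinarith
  have hD : ⌈z⌉₊ ≤ P.card := Nat.ceil_le.2 hcon.le
  obtain ⟨Q, hQP, hQ⟩ := exists_subset_card_eq hD
  have h1 := pairs_le F N Q k t hk (fun K hK hKc => h K (hK.trans hQP) hKc)
  have h2 : (⌈z⌉₊ : ℝ) * b ≤ ((∑ y ∈ Q, (F y ∩ N).card : ℕ) : ℝ) := by
    push_cast
    calc (⌈z⌉₊ : ℝ) * b = ∑ _y ∈ Q, b := by rw [sum_const, nsmul_eq_mul, hQ]
      _ ≤ _ := sum_le_sum fun y hy => hP y (hQP hy)
  have h3 : ((∑ y ∈ Q, (F y ∩ N).card : ℕ) : ℝ) ≤ (k - 1) * N.card + t * (⌈z⌉₊ : ℝ) ^ k := by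
    have h4 : (Q.card.choose k : ℝ) ≤ (⌈z⌉₊ : ℝ) ^ k := by
      rw [hQ]
      exact_mod_cast Nat.choose_le_pow _ _
    have h5 : ((∑ y ∈ Q, (F y ∩ N).card : ℕ) : ℝ) ≤
        (((k - 1) * N.card + t * Q.card.choose k : ℕ) : ℝ) := by exact_mod_cast h1
    refine h5.trans ?_
    push_cast [Nat.cast_sub hk]
    have := mul_le_mul_of_nonneg_left h4 (Nat.cast_nonneg t)
    linarith
  have h6 : z ≤ ⌈z⌉₊ := Nat.le_ceil z
  have h7 : (⌈z⌉₊ : ℝ) ≤ z + 1 := (Nat.ceil_lt_add_one (by linarith)).le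
  have h8 : (⌈z⌉₊ : ℝ) ≤ 3 * k * N.card / b := by
    have h9 : 3 * (k : ℝ) * N.card / b = 3 / 2 * z := by rw [hz]; ring
    rw [h9]
    linarith
  have h10 : z * b = 2 * k * N.card := by
    rw [hz]
    field_simp
  have h11 : 2 * k * (N.card : ℝ) ≤ (k - 1) * N.card + t * (⌈z⌉₊ : ℝ) ^ k := by
    rw [← h10]
    exact (mul_le_mul_of_nonneg_right h6 hb0.le).trans (h2.trans h3)
  have h12 : ((⌈z⌉₊ : ℝ)) ^ k ≤ (3 * k) ^ k * (N.card : ℝ) ^ k / b ^ k := by
    rw [← mul_pow, ← div_pow]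
    exact pow_le_pow_left₀ (Nat.cast_nonneg _) h8 k
  have h13 : (t : ℝ) * ((3 * k) ^ k * (N.card : ℝ) ^ k / b ^ k) ≤ N.card := by
    have hbk : 0 < b ^ k := by positivity
    have e : (N.card : ℝ) ^ k = (N.card : ℝ) ^ (k - 1) * N.card := by
      rw [← pow_succ]
      congr 1
      omega
    rw [← mul_div_assoc, div_le_iff₀ hbk, e]
    calc (t : ℝ) * ((3 * k) ^ k * ((N.card : ℝ) ^ (k - 1) * N.card))
        = N.card * (t * (3 * k) ^ k * (N.card : ℝ) ^ (k - 1)) := by ring
      _ ≤ N.card * b ^ k := mul_le_mul_of_nonneg_left hb hN.le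
  have h14 : (t : ℝ) * (⌈z⌉₊ : ℝ) ^ k ≤ N.card :=
    (mul_le_mul_of_nonneg_left h12 (Nat.cast_nonneg t)).trans h13
  nlinarith

end

end Pool.Agent.X246.ZRK
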