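import Pool.Agent.X246.ZRK.Kst

/-!
# The number of rows with given numbers of ones
-/

set_option autoImplicit false

namespace Pool.Agent.X246.ZRK

open Finset

/-- No `s` rows have more than `t` common ones. -/
def NoCommon {X Y : Type} [Fintype Y] [DecidableEq Y] (F : X → Finset Y) (s t : ℕ) : Prop :=
  ∀ K : Finset X, K.card = s → (univ.filter fun z => ∀ y ∈ K, z ∈ F y).card ≤ t

variable {X Y : Type} [Fintype X] [Fintype Y] [DecidableEq X] [DecidableEq Y]

/-- a maximal set without related pairs -/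
theorem exists_indep (S : Finset X) (R : X → X → Prop) (hR : ∀ x y, R x y → R y x) (D : ℝ)
    (hD : ∀ y ∈ S, ∀ P ⊆ S, (∀ x ∈ P, x ≠ y ∧ R y x) → (P.card : ℝ) ≤ D) :
    ∃ T ⊆ S, (∀ x ∈ T, ∀ y ∈ T, x ≠ y → ¬ R x y) ∧ (S.card : ℝ) ≤ T.card * (1 + D) := by
  classical
  obtain ⟨T, hT, hmax⟩ := exists_max_image
    (S.powerset.filter fun T => ∀ x ∈ T, ∀ y ∈ T, x ≠ y → ¬ R x y) card
    ⟨∅, by simp⟩
  rw [mem_filter, mem_powerset] at hT
  refine ⟨T, hT.1, hT.2, ?_⟩
  have hcov : S ⊆ T.biUnion fun y => insert y (S.filter fun x => x ≠ y ∧ R y x) := by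
    intro x hx
    rw [mem_biUnion]
    by_cases hxT : x ∈ T
    · exact ⟨x, hxT, mem_insert_self _ _⟩
    by_contra hcon
    push Not at hcon
    have h1 : ∀ y ∈ T, ¬ R y x := by
      intro y hy hRy
      have h2 := hcon y hy
      rw [mem_insert, mem_filter, not_or] at h2
      exact h2.2 ⟨hx, h2.1, hRy⟩
    have h3 : insert x T ∈ S.powerset.filter fun T => ∀ x ∈ T, ∀ y ∈ T, x ≠ y → ¬ R x y := by
      rw [mem_filter, mem_powerset]
      refine ⟨insert_subset hx hT.1, fun a ha b hb hab => ?_⟩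
      rw [mem_insert] at ha hb
      rcases ha with rfl | ha
      · rcases hb with rfl | hb
        · exact absurd rfl hab
        · exact fun h => h1 b hb (hR _ _ h)
      · rcases hb with rfl | hb
        · exact h1 a ha
        · exact hT.2 a ha b hb hab
    have h4 := hmax _ h3
    rw [card_insert_of_notMem hxT] at h4
    omega
  calc (S.card : ℝ) ≤ ((T.biUnion fun y => insert y (S.filter fun x => x ≠ y ∧ R y x)).card : ℝ) := by
        exact_mod_cast card_le_card hcov
    _ ≤ ((∑ y ∈ T, (insert y (S.filter fun x => x ≠ y ∧ R y x)).card : ℕ) : ℝ) := by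
        exact_mod_cast card_biUnion_le
    _ ≤ ∑ _y ∈ T, (1 + D) := by
        push_cast
        refine sum_le_sum fun y hy => ?_
        have h1 : ((insert y (S.filter fun x => x ≠ y ∧ R y x)).card : ℝ) ≤
            (S.filter fun x => x ≠ y ∧ R y x).card + 1 := by exact_mod_cast card_insert_le _ _
        have h2 := hD y (hT.1 hy) (S.filter fun x => x ≠ y ∧ R y x) (filter_subset _ _)
          (fun x hx => (mem_filter.1 hx).2)
        linarith
    _ = T.card * (1 + D) := by rw [sum_const, nsmul_eq_mul]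

theorem class_bound (F : X → Finset Y) (k t : ℕ) (hk : 1 ≤ k) (ht : 1 ≤ t)
    (hF : NoCommon F (k + 1) t) (u : ℝ) (hu : 1 ≤ u) (S : Finset X)
    (hlo : ∀ x ∈ S, (u / 2) ^ k ≤ (F x).card) (hhi : ∀ x ∈ S, ((F x).card : ℝ) ≤ u ^ k)
    (hr : 2 * (mat F).rank * (3 * k * t * 2 ^ k) ^ 2 ≤ u ^ 2) :
    (S.card : ℝ) ≤ 4 * (mat F).rank * u := by
  have hk' : (1 : ℝ) ≤ k := by exact_mod_cast hk
  have ht' : (1 : ℝ) ≤ t := by exact_mod_cast ht
  have hu0 : 0 < u := by linarith
  set b : ℝ := 3 * k * t * u ^ (k - 1) with hb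
  have hb0 : 0 < b := by positivity
  have huk : u ^ k = u ^ (k - 1) * u := by
    rw [← pow_succ]
    congr 1
    omega
  -- few heavy partners
  have hD : ∀ y ∈ S, ∀ P ⊆ S, (∀ x ∈ P, x ≠ y ∧ b ≤ ((F y ∩ F x).card : ℝ)) →
      (P.card : ℝ) ≤ u := by
    intro y hy P hPS hP
    have h1 := few F (F y) P k t hk ht (by
      intro K hK hKc
      have hyK : y ∉ K := fun h => (hP y (hK h)).1 rfl
      have h0 := hF (insert y K) (by rw [card_insert_of_notMem hyK, hKc])
      refine le_trans (card_le_card ?_) h0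
      intro z hz
      simp only [mem_filter] at hz ⊢
      refine ⟨mem_univ _, fun x hx => ?_⟩
      rw [mem_insert] at hx
      rcases hx with rfl | hx
      · exact hz.1
      · exact hz.2 x hx) b hb0 (fun x hx => by rw [inter_comm]; exact (hP x hx).2) (by
      have h2 : ((F y).card : ℝ) ^ (k - 1) ≤ (u ^ k) ^ (k - 1) :=
        pow_le_pow_left₀ (Nat.cast_nonneg _) (hhi y hy) _
      have h3 : (t : ℝ) ≤ (t : ℝ) ^ k := by
        calc (t : ℝ) = (t : ℝ) ^ 1 := (pow_one _).symm
          _ ≤ (t : ℝ) ^ k := pow_le_pow_right₀ ht' hk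
      have h4 : b ^ k = (t : ℝ) ^ k * (3 * k) ^ k * (u ^ k) ^ (k - 1) := by
        rw [hb, mul_pow, mul_pow, ← pow_mul, ← pow_mul, mul_comm k (k - 1)]
        ring
      rw [h4]
      gcongr)
    refine h1.trans ?_
    rw [div_le_iff₀ hb0]
    have h5 : 2 * (k : ℝ) * (F y).card ≤ 2 * k * u ^ k := by
      have := hhi y hy
      gcongr
    refine h5.trans ?_
    rw [huk, hb]
    have h6 : 0 ≤ (k : ℝ) * (u ^ (k - 1) * u) := by positivity
    nlinarith
  obtain ⟨T, hTS, hT, hST⟩ := exists_indep S (fun x y => b ≤ ((F x ∩ F y).card : ℝ))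
    (fun x y h => by rw [inter_comm]; exact h) u hD
  -- the rank bound for `T`
  set θ : ℝ := (3 * k * t * 2 ^ k) ^ 2 / u ^ 2 with hθ
  have hθ0 : 0 ≤ θ := by positivity
  have hg := gram_bound F T θ (fun x hx => by
      have h1 : (0 : ℝ) < (F x).card := lt_of_lt_of_le (by positivity) (hlo x (hTS hx))
      exact card_pos.1 (by exact_mod_cast h1)) (by
      intro x hx y hy hxy
      have h1 : ((F x ∩ F y).card : ℝ) < b := by
        have := hT x hx y hy hxy
        push Not at this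
        exact this
      have h2 : ((F x ∩ F y).card : ℝ) ^ 2 ≤ b ^ 2 :=
        pow_le_pow_left₀ (Nat.cast_nonneg _) h1.le 2
      have h3 : b ^ 2 = θ * (u / 2) ^ k * (u / 2) ^ k := by
        rw [hb, hθ, div_pow, huk]
        field_simp
      rw [h3] at h2
      refine h2.trans ?_
      have h4 := hlo x (hTS hx)
      have h5 := hlo y (hTS hy)
      gcongr) hθ0
  have hrθ : (mat F).rank * θ ≤ 1 / 2 := by
    rw [hθ, ← mul_div_assoc, div_le_iff₀ (by positivity)]
    linarith
  have hT2 : (T.card : ℝ) ≤ 2 * (mat F).rank := by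
    have h1 : (T.card : ℝ) * ((mat F).rank * θ) ≤ T.card * (1 / 2) :=
      mul_le_mul_of_nonneg_left hrθ (Nat.cast_nonneg _)
    nlinarith
  calc (S.card : ℝ) ≤ T.card * (1 + u) := hST
    _ ≤ 2 * (mat F).rank * (1 + u) := mul_le_mul_of_nonneg_right hT2 (by linarith)
    _ ≤ 4 * (mat F).rank * u := by
        have h1 : (0 : ℝ) ≤ (mat F).rank := Nat.cast_nonneg _
        nlinarith

end Pool.Agent.X246.ZRK
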