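import Pool.Agent.X246.ZRK.Rows

/-!
# The number of ones of a matrix of small rank
-/

set_option autoImplicit false

namespace Pool.Agent.X246.ZRK

open Finset

variable {X Y : Type} [Fintype X] [Fintype Y] [DecidableEq X] [DecidableEq Y]

/-- rows with many ones -/
theorem heavy (F : X → Finset Y) (s t : ℕ) (hs : 1 ≤ s) (ht : 1 ≤ t) (hF : NoCommon F s t)
    (b : ℝ) (hb0 : 0 < b)
    (hb : (t : ℝ) * (3 * s) ^ s * (Fintype.card Y : ℝ) ^ (s - 1) ≤ b ^ s) (H : Finset X)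
    (hH : ∀ x ∈ H, b ≤ (F x).card) :
    ∑ x ∈ H, ((F x).card : ℝ) ≤ s * Fintype.card Y := by
  have h1 := few F univ H s t hs ht (fun K _ hK => by convert hF K hK) b hb0
    (fun x hx => by rw [inter_univ]; exact hH x hx) (by rw [card_univ]; exact hb)
  have h2 := pairs_le F univ H s t hs (fun K _ hK => by convert hF K hK)
  simp only [inter_univ, card_univ] at h1 h2
  have h3 : (H.card.choose s : ℝ) ≤ (H.card : ℝ) ^ s := by exact_mod_cast Nat.choose_le_pow _ _
  have h4 : (H.card : ℝ) ^ s ≤ (2 * s * Fintype.card Y / b) ^ s :=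
    pow_le_pow_left₀ (Nat.cast_nonneg _) h1 s
  have h5 : (t : ℝ) * (2 * s * Fintype.card Y / b) ^ s ≤ Fintype.card Y := by
    have hbs : 0 < b ^ s := by positivity
    have e : (Fintype.card Y : ℝ) ^ s = (Fintype.card Y : ℝ) ^ (s - 1) * Fintype.card Y := by
      rw [← pow_succ]
      congr 1
      omega
    rw [div_pow, ← mul_div_assoc, div_le_iff₀ hbs, mul_pow, e]
    have h6 : (2 * (s : ℝ)) ^ s ≤ (3 * s) ^ s := by
      apply pow_le_pow_left₀ (by positivity)
      have : (0 : ℝ) ≤ s := Nat.cast_nonneg _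
      linarith
    calc (t : ℝ) * ((2 * s) ^ s * ((Fintype.card Y : ℝ) ^ (s - 1) * Fintype.card Y))
        ≤ t * ((3 * s) ^ s * ((Fintype.card Y : ℝ) ^ (s - 1) * Fintype.card Y)) := by gcongr
      _ = Fintype.card Y * (t * (3 * s) ^ s * (Fintype.card Y : ℝ) ^ (s - 1)) := by ring
      _ ≤ Fintype.card Y * b ^ s := mul_le_mul_of_nonneg_left hb (Nat.cast_nonneg _)
  have h7 : ∑ x ∈ H, ((F x).card : ℝ) ≤ (((s - 1) * Fintype.card Y + t * H.card.choose s : ℕ) : ℝ) := by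
    exact_mod_cast h2
  refine h7.trans ?_
  push_cast [Nat.cast_sub hs]
  have h8 : (t : ℝ) * (H.card.choose s : ℝ) ≤ Fintype.card Y :=
    (mul_le_mul_of_nonneg_left (h3.trans h4) (Nat.cast_nonneg t)).trans h5
  linarith

theorem geom_le (q : ℝ) (hq : 2 ≤ q) (J : ℕ) : ∑ j ∈ range J, q ^ (j + 1) ≤ 2 * q ^ J := by
  induction J with
  | zero => simp
  | succ J ih =>
    rw [sum_range_succ]
    have h1 : 0 < q ^ J := by positivity
    have h2 : q ^ (J + 1) = q ^ J * q := pow_succ _ _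
    nlinarith

/-- **The number of ones**, for no `k + 1` rows with more than `t` common ones. -/
theorem total_bound (F : X → Finset Y) (k t : ℕ) (hk : 1 ≤ k) (ht : 1 ≤ t)
    (hF : NoCommon F (k + 1) t) (hr : 1 ≤ (mat F).rank) (hY : 1 ≤ Fintype.card Y) :
    ∑ x, ((F x).card : ℝ) ≤
      Fintype.card X * (√(2 * (mat F).rank * (3 * k * t * 2 ^ k) ^ 2)) ^ k +
      (8 * (mat F).rank * 2 ^ (k + 1) * (t * (3 * (k + 1)) ^ (k + 1)) + (k + 1)) *
        Fintype.card Y := by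
  classical
  set n : ℝ := (Fintype.card Y : ℝ) with hn
  set r : ℝ := ((mat F).rank : ℝ) with hrr
  have hr1 : (1 : ℝ) ≤ r := by rw [hrr]; exact_mod_cast hr
  have hn1 : (1 : ℝ) ≤ n := by rw [hn]; exact_mod_cast hY
  have hk' : (1 : ℝ) ≤ k := by exact_mod_cast hk
  have ht' : (1 : ℝ) ≤ t := by exact_mod_cast ht
  set A : ℝ := 3 * k * t * 2 ^ k with hA
  have hA1 : 1 ≤ A := by
    have h1 : (1 : ℝ) ≤ 2 ^ k := one_le_pow₀ (by norm_num)
    have h2 : (1 : ℝ) ≤ k * t := by nlinarith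
    rw [hA]
    nlinarith
  set R : ℝ := 2 * r * A ^ 2 with hR
  have hR1 : 1 ≤ R := by
    rw [hR]
    nlinarith
  set A1 : ℝ := t * (3 * (k + 1)) ^ (k + 1) with hA1'
  have hA11 : 1 ≤ A1 := by
    have h1 : (1 : ℝ) ≤ (3 * (k + 1)) ^ (k + 1) := one_le_pow₀ (by linarith)
    rw [hA1']
    nlinarith
  -- the first class
  have hex : ∃ j : ℕ, R ≤ ((2 : ℝ) ^ (j + 1)) ^ 2 := by
    obtain ⟨m, hm⟩ := pow_unbounded_of_one_lt R (by norm_num : (1 : ℝ) < 2)
    refine ⟨m, hm.le.trans ?_⟩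
    rw [← pow_mul]
    exact pow_le_pow_right₀ (by norm_num) (by omega)
  classical
  let j0 := Nat.find hex
  have hj0 : R ≤ ((2 : ℝ) ^ (j0 + 1)) ^ 2 := Nat.find_spec hex
  have hj0' : ((2 : ℝ) ^ j0) ^ 2 ≤ R := by
    rcases Nat.eq_zero_or_pos j0 with h | h
    · rw [h]
      simpa using hR1
    · have h1 := Nat.find_min hex (show j0 - 1 < j0 by omega)
      push Not at h1
      rw [show j0 - 1 + 1 = j0 by omega] at h1
      exact h1.le
  have hsq : (2 : ℝ) ^ j0 ≤ √R := Real.le_sqrt_of_sq_le hj0'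
  -- the last class
  have hex2 : ∃ J : ℕ, A1 * n ≤ ((2 : ℝ) ^ J) ^ (k + 1) := by
    obtain ⟨m, hm⟩ := pow_unbounded_of_one_lt (A1 * n) (by norm_num : (1 : ℝ) < 2)
    refine ⟨m, hm.le.trans ?_⟩
    rw [← pow_mul]
    exact pow_le_pow_right₀ (by norm_num) (Nat.le_mul_of_pos_right m (by omega))
  let J := Nat.find hex2
  have hJ : A1 * n ≤ ((2 : ℝ) ^ J) ^ (k + 1) := Nat.find_spec hex2
  have hJ' : ((2 : ℝ) ^ J) ^ (k + 1) ≤ 2 ^ (k + 1) * (A1 * n) := by
    rcases Nat.eq_zero_or_pos J with h | h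
    · rw [h]
      have h1 : (1 : ℝ) ≤ 2 ^ (k + 1) := one_le_pow₀ (by norm_num)
      have h2 : 1 ≤ A1 * n := by nlinarith
      simp only [pow_zero, one_pow]
      nlinarith
    · have h1 := Nat.find_min hex2 (show J - 1 < J by omega)
      push Not at h1
      have h2 : (2 : ℝ) ^ J = 2 * 2 ^ (J - 1) := by
        rw [← pow_succ']
        congr 1
        omega
      rw [h2, mul_pow]
      exact mul_le_mul_of_nonneg_left h1.le (by positivity)
  -- the three kinds of rows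
  let L := univ.filter fun x => ((F x).card : ℝ) < ((2 : ℝ) ^ j0) ^ k
  let H := univ.filter fun x => ((2 : ℝ) ^ J) ^ k ≤ ((F x).card : ℝ)
  let S : ℕ → Finset X := fun j => univ.filter fun x =>
    j0 ≤ j ∧ ((2 : ℝ) ^ j) ^ k ≤ ((F x).card : ℝ) ∧ ((F x).card : ℝ) < ((2 : ℝ) ^ (j + 1)) ^ k
  have hcov : (univ : Finset X) ⊆ L ∪ (H ∪ (range J).biUnion S) := by
    intro x _
    by_cases h1 : ((F x).card : ℝ) < ((2 : ℝ) ^ j0) ^ k
    · exact mem_union_left _ (mem_filter.2 ⟨mem_univ _, h1⟩)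
    refine mem_union_right _ ?_
    by_cases h2 : ((2 : ℝ) ^ J) ^ k ≤ ((F x).card : ℝ)
    · exact mem_union_left _ (mem_filter.2 ⟨mem_univ _, h2⟩)
    refine mem_union_right _ ?_
    push Not at h1 h2
    have hex3 : ∃ j : ℕ, ((F x).card : ℝ) < ((2 : ℝ) ^ j) ^ k := ⟨J, h2⟩
    let i := Nat.find hex3
    have hi : ((F x).card : ℝ) < ((2 : ℝ) ^ i) ^ k := Nat.find_spec hex3
    have hi1 : i ≤ J := Nat.find_min' hex3 h2
    have hi0 : j0 < i := by
      by_contra hcon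
      push Not at hcon
      have h3 : ((2 : ℝ) ^ i) ^ k ≤ ((2 : ℝ) ^ j0) ^ k :=
        pow_le_pow_left₀ (by positivity) (pow_le_pow_right₀ (by norm_num) hcon) k
      linarith
    have h3 := Nat.find_min hex3 (show i - 1 < i by omega)
    push Not at h3
    rw [mem_biUnion]
    refine ⟨i - 1, mem_range.2 (by omega), mem_filter.2 ⟨mem_univ _, by omega, h3, ?_⟩⟩
    rw [show i - 1 + 1 = i by omega]
    exact hi
  have hL : ∑ x ∈ L, ((F x).card : ℝ) ≤ Fintype.card X * (√R) ^ k := by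
    calc ∑ x ∈ L, ((F x).card : ℝ) ≤ ∑ _x ∈ L, (√R) ^ k := by
          refine sum_le_sum fun x hx => ?_
          have h1 := (mem_filter.1 hx).2
          exact h1.le.trans (pow_le_pow_left₀ (by positivity) hsq k)
      _ = L.card * (√R) ^ k := by rw [sum_const, nsmul_eq_mul]
      _ ≤ Fintype.card X * (√R) ^ k := by
          have h1 : (L.card : ℝ) ≤ Fintype.card X := by exact_mod_cast card_le_univ L
          have h2 : 0 ≤ (√R) ^ k := by positivity
          exact mul_le_mul_of_nonneg_right h1 h2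
  have hHs : ∑ x ∈ H, ((F x).card : ℝ) ≤ (k + 1) * n := by
    have h1 := heavy F (k + 1) t (by omega) ht hF (((2 : ℝ) ^ J) ^ k) (by positivity) (by
      rw [Nat.add_sub_cancel]
      have h2 : (A1 * n) ^ k ≤ (((2 : ℝ) ^ J) ^ (k + 1)) ^ k :=
        pow_le_pow_left₀ (by positivity) hJ k
      have h3 : A1 ≤ A1 ^ k := by
        calc A1 = A1 ^ 1 := (pow_one _).symm
          _ ≤ A1 ^ k := pow_le_pow_right₀ hA11 hk
      push_cast
      rw [← hn]
      calc (t : ℝ) * (3 * (k + 1)) ^ (k + 1) * n ^ k = A1 * n ^ k := by rw [hA1']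
        _ ≤ A1 ^ k * n ^ k := mul_le_mul_of_nonneg_right h3 (by positivity)
        _ = (A1 * n) ^ k := (mul_pow _ _ _).symm
        _ ≤ _ := h2
        _ = _ := pow_right_comm _ _ _) H
      (fun x hx => (mem_filter.1 hx).2)
    push_cast at h1
    exact h1
  have hS : ∀ j ∈ range J, ∑ x ∈ S j, ((F x).card : ℝ) ≤ 4 * r * ((2 : ℝ) ^ (k + 1)) ^ (j + 1) := by
    intro j _
    by_cases hj : j0 ≤ j
    · have h1 : ((S j).card : ℝ) ≤ 4 * r * 2 ^ (j + 1) := by
        refine class_bound F k t hk ht hF (2 ^ (j + 1)) (one_le_pow₀ (by norm_num)) (S j) ?_ ?_ ?_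
        · intro x hx
          have h2 := (mem_filter.1 hx).2.2.1
          rw [show (2 : ℝ) ^ (j + 1) / 2 = 2 ^ j by rw [pow_succ]; ring]
          exact h2
        · intro x hx
          exact ((mem_filter.1 hx).2.2.2).le
        · refine hj0.trans ?_
          apply pow_le_pow_left₀ (by positivity)
          exact pow_le_pow_right₀ (by norm_num) (by omega)
      calc ∑ x ∈ S j, ((F x).card : ℝ) ≤ ∑ _x ∈ S j, ((2 : ℝ) ^ (j + 1)) ^ k :=
            sum_le_sum fun x hx => ((mem_filter.1 hx).2.2.2).le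
        _ = (S j).card * ((2 : ℝ) ^ (j + 1)) ^ k := by rw [sum_const, nsmul_eq_mul]
        _ ≤ 4 * r * 2 ^ (j + 1) * ((2 : ℝ) ^ (j + 1)) ^ k :=
            mul_le_mul_of_nonneg_right h1 (by positivity)
        _ = 4 * r * ((2 : ℝ) ^ (k + 1)) ^ (j + 1) := by
            rw [mul_assoc, ← pow_succ', ← pow_mul, ← pow_mul, mul_comm (j + 1) (k + 1)]
    · have h1 : S j = ∅ := by
        apply filter_eq_empty_iff.2
        intro x _ h
        exact hj h.1
      rw [h1, sum_empty]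
      positivity
  have hmid : ∑ j ∈ range J, ∑ x ∈ S j, ((F x).card : ℝ) ≤
      8 * r * 2 ^ (k + 1) * A1 * n := by
    calc ∑ j ∈ range J, ∑ x ∈ S j, ((F x).card : ℝ)
        ≤ ∑ j ∈ range J, 4 * r * ((2 : ℝ) ^ (k + 1)) ^ (j + 1) := sum_le_sum hS
      _ = 4 * r * ∑ j ∈ range J, ((2 : ℝ) ^ (k + 1)) ^ (j + 1) := by rw [mul_sum]
      _ ≤ 4 * r * (2 * ((2 : ℝ) ^ (k + 1)) ^ J) := by
          refine mul_le_mul_of_nonneg_left (geom_le _ ?_ J) (by positivity)
          calc (2 : ℝ) = 2 ^ 1 := (pow_one _).symm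
            _ ≤ 2 ^ (k + 1) := pow_le_pow_right₀ (by norm_num) (by omega)
      _ = 8 * r * ((2 : ℝ) ^ J) ^ (k + 1) := by
          rw [← pow_mul, ← pow_mul, mul_comm (k + 1) J]
          ring
      _ ≤ 8 * r * (2 ^ (k + 1) * (A1 * n)) := mul_le_mul_of_nonneg_left hJ' (by positivity)
      _ = _ := by ring
  have htot : ∑ x, ((F x).card : ℝ) ≤ ∑ x ∈ L, ((F x).card : ℝ) +
      (∑ x ∈ H, ((F x).card : ℝ) + ∑ j ∈ range J, ∑ x ∈ S j, ((F x).card : ℝ)) := by
    have hnn : ∀ x : X, (0 : ℝ) ≤ (F x).card := fun x => Nat.cast_nonneg _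
    have hun : ∀ P Q : Finset X, ∑ x ∈ P ∪ Q, ((F x).card : ℝ) ≤
        ∑ x ∈ P, ((F x).card : ℝ) + ∑ x ∈ Q, ((F x).card : ℝ) := by
      intro P Q
      have := sum_union_inter (s₁ := P) (s₂ := Q) (f := fun x => ((F x).card : ℝ))
      have h2 : 0 ≤ ∑ x ∈ P ∩ Q, ((F x).card : ℝ) := sum_nonneg fun x _ => hnn x
      linarith
    have hbi : ∑ x ∈ (range J).biUnion S, ((F x).card : ℝ) ≤
        ∑ j ∈ range J, ∑ x ∈ S j, ((F x).card : ℝ) := by
      suffices h : ∀ m : ℕ, ∑ x ∈ (range m).biUnion S, ((F x).card : ℝ) ≤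
          ∑ j ∈ range m, ∑ x ∈ S j, ((F x).card : ℝ) from h J
      intro m
      induction m with
      | zero => simp
      | succ m ih =>
        rw [sum_range_succ, range_add_one, biUnion_insert]
        have := hun (S m) ((range m).biUnion S)
        linarith
    calc ∑ x, ((F x).card : ℝ) ≤ ∑ x ∈ L ∪ (H ∪ (range J).biUnion S), ((F x).card : ℝ) :=
          sum_le_sum_of_subset_of_nonneg hcov fun x _ _ => hnn x
      _ ≤ _ := hun _ _
      _ ≤ _ := by
          have := hun H ((range J).biUnion S)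
          linarith
  have hfin : 8 * r * 2 ^ (k + 1) * A1 * n + (k + 1) * n =
      (8 * r * 2 ^ (k + 1) * A1 + (k + 1)) * n := by ring
  linarith

end Pool.Agent.X246.ZRK
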